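import Pool.Agent.NVB.Sign

/-!
# Monotonicity of the speed of the normalised biased walk for all biases at once

The walk on `ℤ^(d+1)` among dynamical conductances with law `q` on `[lo, κ]`, resampled at rate `μ`.
If `μ ≥ 5 (κ - lo)` (for instance `lo = 0`, `μ ≥ 5 κ`), then `D(q, μ) < 0`, and the speed exists and is
strictly increasing on the whole of `[0, ∞)`.
-/

set_option autoImplicit false

namespace Pool.Agent.Results.MP_9673b8_pr.FastMonotone

open MeasureTheory Pool.Agent.NVB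

theorem result (d : ℕ) {lo κ μ : ℝ} (hlo : 0 ≤ lo) (hκ : 0 < κ) (hμ : 0 < μ)
    (h : 5 * (κ - lo) ≤ μ) (q : Measure (Set.Icc lo κ)) [IsProbabilityMeasure q]
    (hq : q {w | (w : ℝ) = 0} ≠ 1) :
    DD μ q < 0 ∧ ∃ v : ℝ → ℝ, (∀ l, 0 ≤ l → IsSpeed d μ q l (v l)) ∧
      StrictMonoOn v (Set.Ici 0) := by
  have hne : (Set.Icc lo κ).Nonempty := by
    by_contra hne
    have : IsEmpty (Set.Icc lo κ) := Set.isEmpty_coe_sort.2 (Set.not_nonempty_iff_eq_empty.1 hne)
    have h2 := measure_univ (μ := q)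
    rw [Set.univ_eq_empty_iff.2 this, measure_empty] at h2
    exact zero_ne_one h2
  obtain ⟨w0, hw0⟩ := hne
  have hm : 0 < mean q := by
    unfold mean
    rw [integral_pos_iff_support_of_nonneg (fun w : Set.Icc lo κ => hlo.trans w.2.1)
      integrable_val]
    have h1 : (Function.support (fun w : Set.Icc lo κ => (w : ℝ)) : Set (Set.Icc lo κ)) =
        ({w : Set.Icc lo κ | (w : ℝ) = 0}ᶜ : Set (Set.Icc lo κ)) := rfl
    rw [h1]
    have hms : MeasurableSet {w : Set.Icc lo κ | (w : ℝ) = 0} :=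
      measurableSet_eq_fun (by fun_prop) measurable_const
    rw [prob_compl_eq_one_sub hms]
    exact tsub_pos_of_lt (lt_of_le_of_ne prob_le_one hq)
  exact ⟨DD_neg hlo hμ h hm, main hlo (hw0.1.trans hw0.2) hκ hμ h hm⟩

end Pool.Agent.Results.MP_9673b8_pr.FastMonotone
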