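import Pool.Agent.NVB.Core2
import Pool.Agent.NVB.Atom

/-!
# Monotonicity of the speed for every `(q, μ)` with `D(q, μ) ≤ 0` in high dimension

The walk on `ℤ^(d+1)` among dynamical conductances with law `q` on `[0, κ]`, resampled at rate `μ`.  For
all `B` and `η > 0` there is `d0` such that in every dimension `d + 1`, `d ≥ d0`, and for all `q`, `μ`
with `η κ ≤ m`, and `κ ≤ B μ` or `q {0} ≥ 1/B`, the inequality `D(q, μ) ≤ 0` implies that the speed is
strictly increasing in the bias on `[0, ∞)`.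
-/

set_option autoImplicit false

namespace Pool.Agent.Results.MP_9673b8_pr.HighDimMonotone

open MeasureTheory Filter Topology Pool.Agent.NVB

theorem result {B η : ℝ} (hB : 0 < B) (hη : 0 < η) : ∃ d0 : ℕ, ∀ (d : ℕ), d0 ≤ d →
    ∀ (κ μ : ℝ) (q : Measure (Set.Icc (0 : ℝ) κ)) [IsProbabilityMeasure q], 0 < κ → 0 < μ →
      η * κ ≤ ∫ w, (w : ℝ) ∂q → (κ ≤ B * μ ∨ 1 ≤ B * q.real {w | (w : ℝ) = 0}) →
      DD μ q ≤ 0 →
      ∃ v : ℝ → ℝ, (∀ l, 0 ≤ l → IsSpeed d μ q l (v l)) ∧ StrictMonoOn v (Set.Ici 0) := by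
  have hB' : 0 < B + 1 + 2 * B / η ^ 2 := by positivity
  obtain ⟨d0, hd0⟩ := core2 hB' hη
  refine ⟨d0, ?_⟩
  intro d hd κ μ q hq hκ hμ hm hκμ hD
  have hlo : (0 : ℝ) ≤ 0 := le_rfl
  have hκμ' := atom_B hB hη hκ hμ hm hκμ hD
  have hcD : 0 ≤ cD μ q := by
    rw [cD_eq hlo hκ hμ]
    exact div_nonneg (by linarith) (sq_nonneg _)
  have hc := exp_mean_pos hκ
  choose L hL hS using fun l => speed_gen (d := d) (q := q) hlo hκ hμ l
  refine ⟨fun l => L l / ∫ s, s ∂ProbabilityTheory.expMeasure κ, fun l _ => hS l, ?_⟩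
  intro l hl l' _ hll
  beta_reduce
  rw [div_lt_div_iff_of_pos_right hc]
  exact hd0 d hd 0 κ μ q hlo hκ hμ hκμ' hm hcD l l' hl hll (L l) (L l') (hL l) (hL l')

end Pool.Agent.Results.MP_9673b8_pr.HighDimMonotone
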