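import Pool.Agent.NVB.Uni4

/-!
# Monotonicity of the speed for large `Z_l`, uniformly in the dimension, if `D(q, μ) < 0`

The walk on `ℤ^(d+1)`, `d ≥ 1`, among dynamical conductances with law `q` on `[0, κ]`, resampled at rate
`μ`.  For all `B` and `θ > 0` there is a constant `C` such that in every dimension `d + 1 ≥ 2`, for all
`q`, `μ` with `κ ≤ B μ` and `D(q, μ) ≤ -θ κ E[1/(μ+ω)]²`, the speed is strictly increasing on
`{l ≥ 0 | C ≤ Z_l}`.
-/

set_option autoImplicit false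

namespace Pool.Agent.Results.MP_9673b8_pr.LargeBiasMonotone

open MeasureTheory Filter Topology Pool.Agent.NVB

theorem result {B θ : ℝ} (hB : 0 < B) (hθ : 0 < θ) : ∃ C : ℝ, ∀ (d : ℕ), 1 ≤ d →
    ∀ (κ μ : ℝ) (q : Measure (Set.Icc (0 : ℝ) κ)) [IsProbabilityMeasure q], 0 < κ → 0 < μ →
      κ ≤ B * μ → DD μ q ≤ -(θ * κ * (∫ w, 1 / (μ + (w : ℝ)) ∂q) ^ 2) →
      ∃ v : ℝ → ℝ, (∀ l, 0 ≤ l → IsSpeed d μ q l (v l)) ∧
        StrictMonoOn v {l | 0 ≤ l ∧ C ≤ Z d l} := by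
  obtain ⟨C, hC⟩ := core hB hθ
  refine ⟨C, ?_⟩
  intro d hd κ μ q hq hκ hμ hκμ hD
  have hlo : (0 : ℝ) ≤ 0 := le_rfl
  have hA : 0 < ∫ w : Set.Icc (0 : ℝ) κ, 1 / (μ + (w : ℝ)) ∂q := by
    have a1 := h1_pos (q := q) hlo hκ hμ zero_le_one le_rfl
    have a2 : h1 μ q 1 = ∫ w : Set.Icc (0 : ℝ) κ, 1 / (μ + (w : ℝ)) ∂q := by
      unfold h1 X
      refine integral_congr_ae (Eventually.of_forall fun w => ?_)
      beta_reduce
      congr 1
      ring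
    rw [← a2]
    exact a1
  have hcD : θ * κ ≤ cD μ q := by
    rw [cD_eq hlo hκ hμ, le_div_iff₀ (pow_pos hA 2)]
    linarith
  have hc := exp_mean_pos hκ
  choose L hL hS using fun l => speed_gen (d := d) (q := q) hlo hκ hμ l
  refine ⟨fun l => L l / ∫ s, s ∂ProbabilityTheory.expMeasure κ, fun l _ => hS l, ?_⟩
  intro l hl l' _ hll
  beta_reduce
  rw [div_lt_div_iff_of_pos_right hc]
  exact hC d hd 0 κ μ q hlo hκ hμ hκμ hcD l l' hl.1 hll hl.2 (L l) (L l') (hL l) (hL l')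

end Pool.Agent.Results.MP_9673b8_pr.LargeBiasMonotone
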