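import Pool.Agent.NVB.Sign2

/-!
# Monotonicity of the speed in slow environments with small fluctuations

The walk on `ℤ^(d+1)` among dynamical conductances with law `q` on `[0, κ]`, mean `m` and variance `V`,
resampled at rate `μ`.  If `400 V ≤ μ²`, `400 V ≤ m μ` and `400 E|ω - m|³ ≤ m μ²`, then `D(q, μ) < 0`, and
the speed exists and is strictly increasing on the whole of `[0, ∞)`.
-/

set_option autoImplicit false

namespace Pool.Agent.Results.MP_9673b8_pr.SlowMonotone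

open MeasureTheory Pool.Agent.NVB

theorem result (d : ℕ) {κ μ : ℝ} (hκ : 0 < κ) (hμ : 0 < μ) (q : Measure (Set.Icc (0 : ℝ) κ))
    [IsProbabilityMeasure q] (hq : q {w | (w : ℝ) = 0} ≠ 1)
    (h1 : 400 * ∫ w, ((w : ℝ) - mean q) ^ 2 ∂q ≤ μ ^ 2)
    (h2 : 400 * ∫ w, ((w : ℝ) - mean q) ^ 2 ∂q ≤ mean q * μ)
    (h3 : 400 * ∫ w, |(w : ℝ) - mean q| ^ 3 ∂q ≤ mean q * μ ^ 2) :
    DD μ q < 0 ∧ ∃ v : ℝ → ℝ, (∀ l, 0 ≤ l → IsSpeed d μ q l (v l)) ∧
      StrictMonoOn v (Set.Ici 0) := by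
  have hm : 0 < mean q := by
    unfold mean
    rw [integral_pos_iff_support_of_nonneg (fun w : Set.Icc (0 : ℝ) κ => w.2.1) integrable_val]
    have h1 : (Function.support (fun w : Set.Icc (0 : ℝ) κ => (w : ℝ)) :
        Set (Set.Icc (0 : ℝ) κ)) =
        ({w : Set.Icc (0 : ℝ) κ | (w : ℝ) = 0}ᶜ : Set (Set.Icc (0 : ℝ) κ)) := rfl
    rw [h1]
    have hms : MeasurableSet {w : Set.Icc (0 : ℝ) κ | (w : ℝ) = 0} :=
      measurableSet_eq_fun (by fun_prop) measurable_const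
    rw [prob_compl_eq_one_sub hms]
    exact tsub_pos_of_lt (lt_of_le_of_ne prob_le_one hq)
  have e2 : s2 q = (1 / κ ^ 2) * ∫ w, ((w : ℝ) - mean q) ^ 2 ∂q := by
    unfold s2
    rw [← integral_const_mul]
    refine integral_congr_ae (Filter.Eventually.of_forall fun w => ?_)
    unfold wt
    beta_reduce
    rw [sq_abs]
    field_simp
  have e3 : s3 q = (1 / κ ^ 3) * ∫ w, |(w : ℝ) - mean q| ^ 3 ∂q := by
    unfold s3
    rw [← integral_const_mul]
    refine integral_congr_ae (Filter.Eventually.of_forall fun w => ?_)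
    unfold wt
    beta_reduce
    rw [abs_div, abs_of_pos hκ]
    field_simp
  refine ⟨DD_neg' le_rfl hμ hm h2 h1, main_slow le_rfl hκ hμ hm ?_ ?_ ?_⟩
  · rw [e2]
    have h4 : (μ / κ) ^ 2 = 1 / κ ^ 2 * μ ^ 2 := by
      field_simp
    rw [h4]
    have := mul_le_mul_of_nonneg_left h1 (by positivity : 0 ≤ 1 / κ ^ 2)
    linarith
  · rw [e2]
    have h4 : mean q / κ * (μ / κ) = 1 / κ ^ 2 * (mean q * μ) := by
      field_simp
    rw [h4]
    have := mul_le_mul_of_nonneg_left h2 (by positivity : 0 ≤ 1 / κ ^ 2)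
    linarith
  · rw [e3]
    have h4 : mean q / κ * (μ / κ) ^ 2 = 1 / κ ^ 3 * (mean q * μ ^ 2) := by
      field_simp
    rw [h4]
    have := mul_le_mul_of_nonneg_left h3 (by positivity : 0 ≤ 1 / κ ^ 3)
    linarith

end Pool.Agent.Results.MP_9673b8_pr.SlowMonotone
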